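import Pool.Agent.V1153.LK.Lim2

/-!
Limits of algebraic functions on growing discs: projective curves.
-/

set_option autoImplicit false

namespace Pool.Agent.V1153.KB

open Filter Topology Set Metric MvPolynomial
open Pool.Agent.V1153.UG Pool.Agent.Y377.IL
open scoped PowerSeries.WithPiTopology ComplexConjugate

variable {n : ℕ}

theorem pm_tendsto {ι : Type} {l : Filter ι} {ξ : ι → Fin (n + 1) → ℂ} {x : Fin (n + 1) → ℂ}
    (hx : x ≠ 0) (h : Tendsto ξ l (𝓝 x)) : Tendsto (fun i => pm (ξ i)) l (𝓝 (pm x)) := by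
  refine tendsto_pi_nhds.2 fun p => ?_
  have hc : ∀ j, Tendsto (fun i => ξ i j) l (𝓝 (x j)) := fun j => (tendsto_pi_nhds.1 h) j
  have hcc : ∀ j, Tendsto (fun i => conj (ξ i j)) l (𝓝 (conj (x j))) := fun j =>
    (Complex.continuous_conj.tendsto _).comp (hc j)
  refine Tendsto.div ((hc p.1).mul (hcc p.2)) (tendsto_finsetSum _ fun j _ =>
    (hc j).mul (hcc j)) ?_
  rw [sum_conj]
  exact Complex.ofReal_ne_zero.2 (nsq_pos hx).ne'

theorem pm_smul {c : ℂ} (hc : c ≠ 0) {x : Fin (n + 1) → ℂ} (hx : x ≠ 0) :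
    pm (fun j => c * x j) = pm x := by
  refine pm_congr (fun h => hx ?_) hx fun j k => by ring
  funext j
  exact (mul_eq_zero.1 (congrFun h j)).resolve_left hc

/-- the data of a sequence of maps on growing discs with bounded derivatives -/
structure Grow (m : ℕ) (R : ℕ → ℝ) (g : ℕ → ℂ → Fin (n + 1) → ℂ) : Prop where
  rad : ∀ i : ℕ, (i : ℝ) + 2 < R i
  diff : ∀ i j, DifferentiableOn ℂ (fun z => g i z j) (ball 0 (R i))
  ne : ∀ i, ∀ z ∈ ball (0 : ℂ) (R i), g i z ≠ 0
  alg : ∀ i, AlgM m (R i) (g i)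
  one : ∀ i, W (g i) 0 = 1
  two : ∀ i, ∀ w ∈ ball (0 : ℂ) (R i), W (g i) w ≤ 2

/-- `P` is the limit of the curves -/
def IsLim (𝒰 : Ultrafilter ℕ) (g : ℕ → ℂ → Fin (n + 1) → ℂ) (P : Fin (n + 1) → Polynomial ℂ) :
    Prop :=
  ∀ (ζ : ℕ → ℂ) (z : ℂ), Tendsto ζ 𝒰 (𝓝 z) →
    Tendsto (fun i => pm (g i (ζ i))) 𝒰 (𝓝 (pm fun j => (P j).eval z))

theorem curve_lim_k {𝒰 : Ultrafilter ℕ} (h𝒰le : (𝒰 : Filter ℕ) ≤ atTop) {m : ℕ} {R : ℕ → ℝ}
    {g : ℕ → ℂ → Fin (n + 1) → ℂ} (hg : Grow m R g) {k : Fin (n + 1)}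
    (hgk : ∀ i, ‖g i 0 k‖ = ‖g i 0‖) :
    ∃ P : Fin (n + 1) → Polynomial ℂ, (∀ j, (P j).natDegree ≤ (n + 1) * m) ∧
      (∀ z, (fun j => (P j).eval z) ≠ 0) ∧
      (∃ s t j k, (P j).eval s * (P k).eval t ≠ (P k).eval s * (P j).eval t) ∧ IsLim 𝒰 g P := by
  classical
  have hR := hg.rad
  have hW0 := hg.one
  have hW2 := hg.two
  have halg := hg.alg
  have hgd := hg.diff
  have hgne := hg.ne
  have hRp : ∀ i, 0 < R i := fun i => by
    have h1 : (0 : ℝ) ≤ (i : ℕ) := Nat.cast_nonneg _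
    linarith [hR i]
  have h0in : ∀ i, (0 : ℂ) ∈ ball (0 : ℂ) (R i) := fun i => mem_ball_self (hRp i)
  -- the bounded chart
  set ε : ℝ := 1 / (8 * ((n : ℝ) + 1) ^ 2) with hε
  have hn1 : (1 : ℝ) ≤ (n : ℝ) + 1 := by
    have : (0 : ℝ) ≤ n := Nat.cast_nonneg _
    linarith
  have hε0 : 0 < ε := by positivity
  have hε1 : ε < 1 := by
    rw [hε, div_lt_one (by positivity)]
    nlinarith
  have hsub : ∀ i, ball (0 : ℂ) ε ⊆ ball (0 : ℂ) (R i) := fun i => ball_subset_ball (by
    have h1 : (0 : ℝ) ≤ (i : ℕ) := Nat.cast_nonneg _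
    linarith [hR i])
  have hchart : ∀ i, ∀ z ∈ ball (0 : ℂ) ε, g i z k ≠ 0 ∧
      ∀ j, ‖g i z j / g i z k‖ ≤ 2 * ((n : ℝ) + 1) := by
    intro i z hz
    have hz' := hsub i hz
    have h1 := pm_lip isOpen_ball (convex_ball 0 (R i)) (hgd i) (hgne i) (hW2 i) (h0in i) hz'
    rw [sub_zero] at h1
    rw [mem_ball_zero_iff] at hz
    have h2 : ‖pm (g i z) - pm (g i 0)‖ ≤ 1 / (2 * ((n : ℝ) + 1)) := by
      refine h1.trans ?_
      calc 2 * ((n : ℝ) + 1) * 2 * ‖z‖ ≤ 2 * ((n : ℝ) + 1) * 2 * ε := by gcongr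
        _ = 1 / (2 * ((n : ℝ) + 1)) := by
            rw [hε]
            field_simp
            ring
    have h3 := (norm_le_pi_norm (pm (g i z) - pm (g i 0)) (k, k)).trans h2
    have h4 : 1 / ((n : ℝ) + 1) ≤ ‖pm (g i 0) (k, k)‖ := by
      rw [norm_pm, div_le_div_iff₀ (by positivity) (nsq_pos ((hgne i) 0 (h0in i))), one_mul]
      simp only
      rw [hgk i]
      have := nsq_le (g i 0)
      nlinarith
    have h5 : 1 / (2 * ((n : ℝ) + 1)) ≤ ‖pm (g i z) (k, k)‖ := by
      have h6 := norm_sub_norm_le (pm (g i 0) (k, k)) (pm (g i z) (k, k))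
      rw [norm_sub_rev] at h6
      have h7 : ‖pm (g i z) (k, k) - pm (g i 0) (k, k)‖ ≤ 1 / (2 * ((n : ℝ) + 1)) := h3
      have h8 : 1 / ((n : ℝ) + 1) = 1 / (2 * ((n : ℝ) + 1)) + 1 / (2 * ((n : ℝ) + 1)) := by
        field_simp
        ring
      linarith
    have hnz := nsq_pos ((hgne i) z hz')
    rw [norm_pm, div_le_div_iff₀ (by positivity) hnz, one_mul] at h5
    simp only at h5
    have hkz : g i z k ≠ 0 := by
      intro h0
      rw [h0, norm_zero, zero_mul, zero_mul] at h5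
      linarith
    refine ⟨hkz, fun j => ?_⟩
    have hkp : 0 < ‖g i z k‖ := norm_pos_iff.2 hkz
    rw [norm_div, div_le_iff₀ hkp]
    have h6 := sq_le_nsq (g i z) j
    have h7 : ‖g i z j‖ ^ 2 ≤ (2 * ((n : ℝ) + 1) * ‖g i z k‖) ^ 2 := by
      calc ‖g i z j‖ ^ 2 ≤ nsq (g i z) := h6
        _ ≤ ‖g i z k‖ * ‖g i z k‖ * (2 * ((n : ℝ) + 1)) := h5
        _ ≤ ‖g i z k‖ * ‖g i z k‖ * (2 * ((n : ℝ) + 1)) ^ 2 := by
            gcongr
            nlinarith
        _ = _ := by ring
    exact (pow_le_pow_iff_left₀ (norm_nonneg _) (by positivity) two_ne_zero).1 h7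
  have hud : ∀ i j, DifferentiableOn ℂ (fun z => g i z j / g i z k) (ball 0 ε) := fun i j =>
    ((hgd i j).mono (hsub i)).div ((hgd i k).mono (hsub i)) fun z hz =>
      (hchart i z hz).1
  have h0ε : (0 : ℂ) ∈ ball (0 : ℂ) ε := mem_ball_self hε0
  have huan : ∀ i j, AnalyticAt ℂ (fun z => g i z j / g i z k) 0 := fun i j =>
    (hud i j).analyticAt (isOpen_ball.mem_nhds h0ε)
  let uA : ℕ → Fin (n + 1) → An 0 := fun i j => ⟨_, huan i j⟩
  -- the limit
  have hlim : ∀ (j : Fin (n + 1)) (l : ℕ), ∃ x,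
      Tendsto (fun i => PowerSeries.coeff l (TS 0 (uA i j))) 𝒰 (𝓝 x) := by
    intro j l
    refine ultra_lim (C := 2 * ((n : ℝ) + 1) / (ε / 2) ^ l) (Filter.Eventually.of_forall fun i => ?_)
    have h4 := Complex.norm_iteratedDeriv_le_of_forall_mem_sphere_norm_le (c := (0 : ℂ))
      (R := ε / 2) (C := 2 * ((n : ℝ) + 1)) l (by positivity)
      ((hud i j).diffContOnCl_ball (closedBall_subset_ball (by linarith))) (by
        intro z hz
        rw [mem_sphere_zero_iff_norm] at hz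
        exact (hchart i z (by rw [mem_ball_zero_iff, hz]; linarith)).2 j)
    change ‖PowerSeries.coeff l (tay 0 fun z => g i z j / g i z k)‖ ≤ _
    rw [Pool.Agent.Y564.IL.tay_coeff, norm_div, RCLike.norm_natCast]
    have h6 : (0 : ℝ) < l.factorial := by exact_mod_cast l.factorial_pos
    rw [div_le_iff₀ h6]
    refine h4.trans (le_of_eq ?_)
    ring
  choose uc huc using hlim
  let u : Fin (n + 1) → PowerSeries ℂ := fun j => PowerSeries.mk (uc j)
  have hu : ∀ j, Tendsto (fun i => TS 0 (uA i j)) 𝒰 (𝓝 (u j)) := by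
    intro j
    refine (PowerSeries.WithPiTopology.tendsto_iff_coeff_tendsto _ _ _ _).2 fun l => ?_
    rw [PowerSeries.coeff_mk]
    exact huc j l
  have hupi : Tendsto (fun i j => TS 0 (uA i j)) 𝒰 (𝓝 u) := tendsto_pi_nhds.2 hu
  -- rationality
  have hrat : ∀ j, ∃ B H : Polynomial ℂ, B ≠ 0 ∧ B.natDegree ≤ m ∧ H.natDegree ≤ m ∧
      (B : PowerSeries ℂ) * u j = (H : PowerSeries ℂ) ∧
      ∀ (z : ℂ) (μ : ℕ → ℂ) (ya yb : ℂ), Tendsto (fun i => μ i * g i z j) 𝒰 (𝓝 ya) →
        Tendsto (fun i => μ i * g i z k) 𝒰 (𝓝 yb) → B.eval z * ya = H.eval z * yb := fun j =>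
    lim_rat' h𝒰le hR (fun i => hgd i j) (fun i => hgd i k)
      (fun i => (hchart i 0 h0ε).1) (fun i => halg i j k) (hu j)
  choose B H hB hBd hHd hBH hpt using hrat
  let P : Fin (n + 1) → Polynomial ℂ := fun j => H j * ∏ l ∈ Finset.univ.erase j, B l
  let Bt : Polynomial ℂ := ∏ l, B l
  have hBt : Bt ≠ 0 := Finset.prod_ne_zero_iff.2 fun l _ => hB l
  have hBt' : (Bt : PowerSeries ℂ) ≠ 0 := by
    rw [← Polynomial.coe_zero]
    exact fun h => hBt (Polynomial.coe_injective _ h)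
  have hPu : ∀ j, (P j : PowerSeries ℂ) = (Bt : PowerSeries ℂ) * u j := by
    intro j
    have h1 : Bt = B j * ∏ l ∈ Finset.univ.erase j, B l :=
      (Finset.mul_prod_erase Finset.univ B (Finset.mem_univ j)).symm
    rw [h1]
    simp only [P]
    rw [Polynomial.coe_mul, Polynomial.coe_mul, ← hBH j]
    ring
  have hPdeg : ∀ j, (P j).natDegree ≤ (n + 1) * m := by
    intro j
    refine Polynomial.natDegree_mul_le.trans ?_
    have h1 : (∏ l ∈ Finset.univ.erase j, B l).natDegree ≤ n * m := by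
      refine (Polynomial.natDegree_prod_le _ _).trans ?_
      refine (Finset.sum_le_card_nsmul _ _ m fun l _ => hBd l).trans ?_
      rw [Finset.card_erase_of_mem (Finset.mem_univ j), Finset.card_univ, Fintype.card_fin,
        smul_eq_mul, Nat.add_sub_cancel]
    have h2 := hHd j
    have h3 : (n + 1) * m = m + n * m := by ring
    omega
  have hPnc : ∃ s t j k, (P j).eval s * (P k).eval t ≠ (P k).eval s * (P j).eval t := by
    refine nc_of_wr ?_
    -- the limit is not constant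
    by_contra hcw
    push Not at hcw
    have hc0 : ∀ j, Tendsto (fun i => g i 0 j / g i 0 k) 𝒰
        (𝓝 (PowerSeries.constantCoeff (u j))) := by
      intro j
      have h1 := (PowerSeries.WithPiTopology.continuous_constantCoeff ℂ).continuousAt.tendsto.comp
        (hu j)
      refine h1.congr fun i => ?_
      change PowerSeries.constantCoeff (TS 0 (uA i j)) = _
      rw [TS_cc]
    have hc1 : ∀ j, Tendsto (fun i => deriv (fun z => g i z j / g i z k) 0) 𝒰
        (𝓝 (PowerSeries.constantCoeff (PowerSeries.derivative ℂ (u j)))) := by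
      intro j
      have h1 := (PowerSeries.WithPiTopology.continuous_coeff ℂ 1).continuousAt.tendsto.comp
        (hu j)
      have h2 : PowerSeries.coeff 1 (u j) =
          PowerSeries.constantCoeff (PowerSeries.derivative ℂ (u j)) := by
        rw [← PowerSeries.coeff_zero_eq_constantCoeff_apply]
        change _ = PowerSeries.coeff 0 (PowerSeries.derivative ℂ (u j))
        rw [PowerSeries.coeff_derivative]
        simp
      rw [h2] at h1
      refine h1.congr fun i => ?_
      change PowerSeries.coeff 1 (tay 0 fun z => g i z j / g i z k) = _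
      rw [Pool.Agent.Y564.IL.tay_coeff, iteratedDeriv_one]
      simp
    have hwz : ∀ p q, PowerSeries.constantCoeff (u p) *
        PowerSeries.constantCoeff (PowerSeries.derivative ℂ (u q)) -
          PowerSeries.constantCoeff (u q) *
            PowerSeries.constantCoeff (PowerSeries.derivative ℂ (u p)) = 0 := by
      intro p q
      have h1 := congrArg (fun x : Polynomial ℂ => (x : PowerSeries ℂ)) (hcw p q)
      simp only [Polynomial.coe_mul] at h1
      have h2 : ∀ x : Polynomial ℂ, ((Polynomial.derivative x : Polynomial ℂ) : PowerSeries ℂ) =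
          PowerSeries.derivative ℂ (x : PowerSeries ℂ) := fun x =>
        (PowerSeries.derivative_coe x).symm
      rw [h2, h2, hPu, hPu, Derivation.leibniz, Derivation.leibniz] at h1
      simp only [smul_eq_mul] at h1
      have h3 : (Bt : PowerSeries ℂ) ^ 2 * (u p * PowerSeries.derivative ℂ (u q) -
          u q * PowerSeries.derivative ℂ (u p)) = 0 := by linear_combination -h1
      have h4 := (mul_eq_zero.1 h3).resolve_left (pow_ne_zero _ hBt')
      have h5 := congrArg PowerSeries.constantCoeff h4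
      rw [map_sub, map_mul, map_mul, map_zero] at h5
      exact h5
    -- the size of the Wronskians
    have hw1 : ∀ i, ∃ p : Fin (n + 1) × Fin (n + 1),
        ‖g i 0 p.1 / g i 0 k * deriv (fun z => g i z p.2 / g i z k) 0 -
          g i 0 p.2 / g i 0 k * deriv (fun z => g i z p.1 / g i z k) 0‖ = 1 := by
      intro i
      obtain ⟨p, -, hp⟩ := Finset.exists_max_image Finset.univ (fun p => ‖wr (g i) 0 p‖)
        Finset.univ_nonempty
      have hp' : ‖wr (g i) 0 p‖ = ‖wr (g i) 0‖ := le_antisymm (norm_le_pi_norm _ p)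
        ((pi_norm_le_iff_of_nonneg (norm_nonneg _)).2 fun q => hp q (Finset.mem_univ q))
      refine ⟨p, ?_⟩
      have hk0 := (hchart i 0 h0ε).1
      have hda : ∀ j, DifferentiableAt ℂ (fun z => g i z j) 0 := fun j =>
        ((hgd i) j).differentiableAt (isOpen_ball.mem_nhds (h0in i))
      have h1 : g i 0 p.1 / g i 0 k * deriv (fun z => g i z p.2 / g i z k) 0 -
          g i 0 p.2 / g i 0 k * deriv (fun z => g i z p.1 / g i z k) 0 =
            wr (g i) 0 p / (g i 0 k) ^ 2 := by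
        rw [deriv_fun_div (hda _) (hda _) hk0, deriv_fun_div (hda _) (hda _) hk0]
        unfold wr
        field_simp
        ring
      rw [h1, norm_div, norm_pow, hgk i, hp']
      exact hW0 i
    obtain ⟨p, hp⟩ : ∃ p : Fin (n + 1) × Fin (n + 1), ∃ᶠ i in (𝒰 : Filter ℕ),
        ‖g i 0 p.1 / g i 0 k * deriv (fun z => g i z p.2 / g i z k) 0 -
          g i 0 p.2 / g i 0 k * deriv (fun z => g i z p.1 / g i z k) 0‖ = 1 := by
      by_contra hc
      push Not at hc
      have h1 := Filter.eventually_all.2 hc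
      obtain ⟨i, hi⟩ := h1.exists
      obtain ⟨p, hp⟩ := hw1 i
      exact hi p hp
    have ht : Tendsto (fun i => ‖g i 0 p.1 / g i 0 k * deriv (fun z => g i z p.2 / g i z k) 0 -
        g i 0 p.2 / g i 0 k * deriv (fun z => g i z p.1 / g i z k) 0‖) 𝒰 (𝓝 0) := by
      have h1 := (((hc0 p.1).mul (hc1 p.2)).sub ((hc0 p.2).mul (hc1 p.1))).norm
      rw [hwz, norm_zero] at h1
      exact h1
    have h2 := (ht.eventually (gt_mem_nhds (zero_lt_one))).and_frequently hp
    obtain ⟨i, h3, h4⟩ := h2.exists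
    rw [h4] at h3
    exact lt_irrefl _ h3
  have hP0 : ∃ j, P j ≠ 0 := by
    obtain ⟨s, t, j, k, h1⟩ := hPnc
    by_contra hcon
    push Not at hcon
    exact h1 (by rw [hcon j, hcon k])
  obtain ⟨g0, P', hg0, hPP, hne⟩ := primitive P hP0
  have hne' : ∀ z, (fun j => (P' j).eval z) ≠ 0 := by
    intro z h0
    obtain ⟨j, hj⟩ := hne z
    exact hj (congrFun h0 j)
  have hev : ∀ z j, (P j).eval z = g0.eval z * (P' j).eval z := fun z j => by
    rw [hPP j, Polynomial.eval_mul]
  refine ⟨P', fun j => ?_, hne', ?_, ?_⟩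
  · by_cases h0 : P' j = 0
    · rw [h0, Polynomial.natDegree_zero]
      exact Nat.zero_le _
    · have h1 := hPdeg j
      rw [hPP j, Polynomial.natDegree_mul hg0 h0] at h1
      omega
  · obtain ⟨s, t, j, l, h1⟩ := hPnc
    refine ⟨s, t, j, l, fun h2 => h1 ?_⟩
    rw [hev, hev, hev, hev]
    linear_combination g0.eval s * g0.eval t * h2
  · -- the limits
    have hevb : ∀ z : ℂ, ∀ᶠ i in (𝒰 : Filter ℕ), z ∈ ball (0 : ℂ) (R i) := by
      intro z
      have h1 : Tendsto (fun i : ℕ => (i : ℝ)) 𝒰 atTop :=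
        tendsto_natCast_atTop_atTop.mono_left h𝒰le
      filter_upwards [h1.eventually_gt_atTop ‖z‖] with i hi
      rw [mem_ball_zero_iff]
      linarith [hR i]
    have hlip : ∀ i, ∀ z ∈ ball (0 : ℂ) (R i), ∀ w ∈ ball (0 : ℂ) (R i),
        ‖pm (g i w) - pm (g i z)‖ ≤ 2 * ((n : ℝ) + 1) * 2 * ‖w - z‖ := fun i z hz w hw =>
      pm_lip isOpen_ball (convex_ball 0 (R i)) (hgd i) (hgne i) (hW2 i) hz hw
    have hy : ∀ z : ℂ, ∃ y : Fin (n + 1) → ℂ, y ≠ 0 ∧ (∀ j, Tendsto (fun i =>
        ((‖g i z‖⁻¹ : ℝ) : ℂ) * g i z j) 𝒰 (𝓝 (y j))) ∧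
        Tendsto (fun i => pm (g i z)) 𝒰 (𝓝 (pm y)) := by
      intro z
      have hnorm : ∀ᶠ i in (𝒰 : Filter ℕ), ‖fun j => ((‖g i z‖⁻¹ : ℝ) : ℂ) * g i z j‖ = 1 := by
        filter_upwards [hevb z] with i hi
        have h1 : (fun j => ((‖g i z‖⁻¹ : ℝ) : ℂ) * g i z j) = ((‖g i z‖⁻¹ : ℝ) : ℂ) • g i z := by
          funext j
          rfl
        rw [h1, norm_smul, Complex.norm_real, Real.norm_of_nonneg (inv_nonneg.2 (norm_nonneg _)),
          inv_mul_cancel₀ (norm_ne_zero_iff.2 (hgne i z hi))]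
      obtain ⟨y, hy⟩ := ultra_lim (𝒰 := 𝒰) (a := fun i j => ((‖g i z‖⁻¹ : ℝ) : ℂ) * g i z j)
        (C := 1) (hnorm.mono fun i hi => hi.le)
      have hy1 : ‖y‖ = 1 := by
        refine tendsto_nhds_unique hy.norm ?_
        exact tendsto_const_nhds.congr' (hnorm.mono fun i hi => hi.symm)
      have hy0 : y ≠ 0 := by
        intro h0
        rw [h0, norm_zero] at hy1
        exact zero_ne_one hy1
      refine ⟨y, hy0, fun j => (tendsto_pi_nhds.1 hy) j, ?_⟩
      refine (pm_tendsto hy0 hy).congr' ?_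
      filter_upwards [hevb z] with i hi
      exact pm_smul (Complex.ofReal_ne_zero.2 (inv_ne_zero (norm_ne_zero_iff.2 (hgne i z hi))))
        (hgne i z hi)
    choose y hy0 hyt hyp using hy
    have hgen : ∀ z, Bt.eval z ≠ 0 → pm (y z) = pm fun j => (P' j).eval z := by
      intro z hz
      have h1 : ∀ j, Bt.eval z * y z j = (P j).eval z * y z k := by
        intro j
        have h2 := hpt j z _ _ _ (hyt z j) (hyt z k)
        have h3 : Bt = B j * ∏ l ∈ Finset.univ.erase j, B l :=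
          (Finset.mul_prod_erase Finset.univ B (Finset.mem_univ j)).symm
        rw [h3]
        simp only [P, Polynomial.eval_mul]
        linear_combination (Polynomial.eval z (∏ l ∈ Finset.univ.erase j, B l)) * h2
      refine pm_congr (hy0 z) (hne' z) fun j l => ?_
      refine mul_left_cancel₀ hz ?_
      have h2 := h1 j
      have h3 := h1 l
      rw [hev] at h2 h3
      linear_combination (P' l).eval z * h2 - (P' j).eval z * h3
    have hPi : ∀ z w, ‖pm (y w) - pm (y z)‖ ≤ 2 * ((n : ℝ) + 1) * 2 * ‖w - z‖ := by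
      intro z w
      refine le_of_tendsto ((hyp w).sub (hyp z)).norm ?_
      filter_upwards [hevb z, hevb w] with i h1 h2
      exact hlip i z h1 w h2
    have hall : ∀ z, pm (y z) = pm fun j => (P' j).eval z := by
      intro z
      have h1 : Tendsto (fun w => pm (y w)) (𝓝[≠] z) (𝓝 (pm (y z))) := by
        rw [tendsto_iff_norm_sub_tendsto_zero]
        have h2 : Tendsto (fun w : ℂ => 2 * ((n : ℝ) + 1) * 2 * ‖w - z‖) (𝓝[≠] z) (𝓝 0) := by
          have h3 : Tendsto (fun w : ℂ => 2 * ((n : ℝ) + 1) * 2 * ‖w - z‖) (𝓝 z)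
              (𝓝 (2 * ((n : ℝ) + 1) * 2 * ‖z - z‖)) :=
            (Continuous.tendsto (by fun_prop) z)
          rw [sub_self, norm_zero, mul_zero] at h3
          exact h3.mono_left nhdsWithin_le_nhds
        exact squeeze_zero (fun w => norm_nonneg _) (fun w => hPi z w) h2
      have h2 : Tendsto (fun w => pm fun j => (P' j).eval w) (𝓝[≠] z)
          (𝓝 (pm fun j => (P' j).eval z)) := by
        have h3 : Tendsto (fun w : ℂ => fun j => (P' j).eval w) (𝓝 z)
            (𝓝 fun j => (P' j).eval z) :=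
          tendsto_pi_nhds.2 fun j => (P' j).continuous.tendsto z
        exact pm_tendsto (hne' z) (h3.mono_left nhdsWithin_le_nhds)
      refine tendsto_nhds_unique_of_eventuallyEq h1 h2 ?_
      have h3 : ∀ᶠ w in 𝓝[≠] z, Bt.eval w ≠ 0 := by
        have h4 : {w | Bt.eval w = 0}.Finite := by
          refine (Bt.roots.toFinset.finite_toSet).subset fun w hw => ?_
          rw [Finset.mem_coe, Multiset.mem_toFinset, Polynomial.mem_roots hBt]
          exact hw
        have h5 : (({w | Bt.eval w = 0} \ {z})ᶜ : Set ℂ) ∈ 𝓝 z :=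
          (h4.subset sdiff_subset).isClosed.isOpen_compl.mem_nhds fun h => h.2 rfl
        filter_upwards [mem_nhdsWithin_of_mem_nhds h5, self_mem_nhdsWithin] with w hw hwz h0
        exact hw ⟨h0, hwz⟩
      filter_upwards [h3] with w hw
      exact hgen w hw
    intro ζ z hζ
    have h1 := hyp z
    rw [hall z] at h1
    have h2 : Tendsto (fun i => pm (g i (ζ i)) - pm (g i z)) 𝒰 (𝓝 0) := by
      rw [tendsto_zero_iff_norm_tendsto_zero]
      have h3 : Tendsto (fun i => 2 * ((n : ℝ) + 1) * 2 * ‖ζ i - z‖) 𝒰 (𝓝 0) := by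
        have h4 := ((hζ.sub_const z).norm).const_mul (2 * ((n : ℝ) + 1) * 2)
        rwa [sub_self, norm_zero, mul_zero] at h4
      refine squeeze_zero' (Filter.Eventually.of_forall fun i => norm_nonneg _) ?_ h3
      have hζb : ∀ᶠ i in (𝒰 : Filter ℕ), ζ i ∈ ball (0 : ℂ) (R i) := by
        have h4 : Tendsto (fun i : ℕ => (i : ℝ)) 𝒰 atTop :=
          tendsto_natCast_atTop_atTop.mono_left h𝒰le
        filter_upwards [h4.eventually_gt_atTop (‖z‖ + 1),
          hζ.norm.eventually (gt_mem_nhds (lt_add_one ‖z‖))] with i h5 h6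
        rw [mem_ball_zero_iff]
        linarith [hR i]
      filter_upwards [hevb z, hζb] with i h5 h6
      exact hlip i z h5 _ h6
    have h3 := h1.add h2
    rw [add_zero] at h3
    refine h3.congr fun i => ?_
    abel

end Pool.Agent.V1153.KB
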