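import Pool.Agent.V1153.LK.Hur
import Pool.Agent.V1153.KB.Kob

/-!
Algebraic discs in families of complements of hypersurfaces.
-/

set_option autoImplicit false

namespace Pool.Agent.V1153.KB

open Filter Topology Set Metric MvPolynomial
open Pool.Agent.V1153.UG

variable {n : ℕ}

/-- `P` gives a nonconstant map of degree at most `N` from the affine line to the variety with the
equations `E` such that the forms `Q_l` with `l ∈ J` vanish on the image and the other forms have no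
zeros there. -/
structure LineStr (E : Set (MvPolynomial (Fin (n + 1)) ℂ)) {κ : Type}
    (Q : κ → MvPolynomial (Fin (n + 1)) ℂ) (J : Set κ) (N : ℕ) (P : Fin (n + 1) → Polynomial ℂ) :
    Prop where
  deg : ∀ j, (P j).natDegree ≤ N
  ne : ∀ z, (fun j => (P j).eval z) ≠ 0
  mem : ∀ z, ∀ F ∈ E, eval (fun j => (P j).eval z) F = 0
  van : ∀ l ∈ J, ∀ z, eval (fun j => (P j).eval z) (Q l) = 0
  off : ∀ l, l ∉ J → ∀ z, eval (fun j => (P j).eval z) (Q l) ≠ 0
  nc : ∃ s t j k, (P j).eval s * (P k).eval t ≠ (P k).eval s * (P j).eval t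

/-- `f` gives a holomorphic map from the unit disc to the complement of the hypersurfaces `Q_l = 0`
in the variety with the equations `E`. -/
def Off {κ : Type} (Q : κ → MvPolynomial (Fin (n + 1)) ℂ) (f : ℂ → Fin (n + 1) → ℂ) : Prop :=
  ∀ l, ∀ z ∈ ball (0 : ℂ) 1, eval (f z) (Q l) ≠ 0

theorem rescale1 {f : ℂ → Fin (n + 1) → ℂ} {m : ℕ}
    (hd : ∀ j, DifferentiableOn ℂ (fun z => f z j) (ball 0 1))
    (hne : ∀ z ∈ ball (0 : ℂ) 1, f z ≠ 0) (ha : AlgM m 1 f) {r : ℝ} (hr : 0 < r)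
    (hW : 4 * r < W f 0) :
    ∃ (g : ℂ → Fin (n + 1) → ℂ) (R : ℝ), r < R ∧
      (∀ j, DifferentiableOn ℂ (fun z => g z j) (ball 0 R)) ∧
      (∀ z ∈ ball (0 : ℂ) R, ∃ w ∈ ball (0 : ℂ) 1, g z = f w) ∧ AlgM m R g ∧ W g 0 = 1 ∧
      ∀ w ∈ ball (0 : ℂ) R, W g w ≤ 2 := by
  have h0 : 0 < W f 0 := by linarith
  obtain ⟨a, s, hs, h1, h2, h3⟩ := hofer hd hne h0
  refine ⟨_, W f 0 / 4, by linarith, fun j => ?_, fun z hz => ⟨_, h1 z hz, rfl⟩, fun j k => ?_,
    h2, h3⟩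
  · refine (hd j).comp ?_ fun z hz => h1 z hz
    exact (differentiableOn_const _).add (differentiableOn_id.mul (differentiableOn_const _))
  · have hs' : ((s⁻¹ : ℝ) : ℂ) ≠ 0 := by
      rw [Ne, Complex.ofReal_eq_zero]
      exact inv_ne_zero hs.ne'
    refine (ha j k).comp (s := ((s⁻¹ : ℝ) : ℂ)) (t := a) (u := 0) (v := 1)
      (φ := fun w => a + w * (s⁻¹ : ℝ)) (infinite_ball (by linarith)) h1 (fun x _ y _ hxy => ?_)
      (fun w _ => by rw [zero_mul, zero_add]; exact one_ne_zero) fun w _ => by ring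
    exact mul_right_cancel₀ hs' (add_left_cancel hxy)

/-- a continuous family of forms of degree `a` -/
structure CFam {T : Type} [TopologicalSpace T] (a : ℕ)
    (F : T → MvPolynomial (Fin (n + 1)) ℂ) : Prop where
  hom : ∀ t, (F t).IsHomogeneous a
  cont : Continuous fun p : T × (Fin (n + 1) → ℂ) => eval p.2 (F p.1)

/-- **Algebraic discs in families.** -/
theorem fam_bound {T : Type} [TopologicalSpace T] [FirstCountableTopology T] {ι κ : Type} (m : ℕ)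
    (F : ι → T → MvPolynomial (Fin (n + 1)) ℂ) (hF : ∀ l, ∃ a, CFam a (F l))
    (Q : κ → T → MvPolynomial (Fin (n + 1)) ℂ) (hQ : ∀ l, ∃ a, CFam a (Q l)) (t0 : T)
    (hno : ∀ (J : Set κ) (P : Fin (n + 1) → Polynomial ℂ),
      ¬ LineStr (range fun l => F l t0) (fun l => Q l t0) J ((n + 1) * m) P) :
    ∃ C : ℝ, ∀ᶠ t in 𝓝 t0, ∀ f, DAlg (range fun l => F l t) m f → Off (fun l => Q l t) f →
      W f 0 ≤ C := by
  classical
  by_contra hcon
  push Not at hcon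
  obtain ⟨V, hV⟩ := (𝓝 t0).exists_antitone_basis
  have hseq : ∀ i : ℕ, ∃ (t : T) (f : ℂ → Fin (n + 1) → ℂ), t ∈ V i ∧
      DAlg (range fun l => F l t) m f ∧ Off (fun l => Q l t) f ∧ 4 * ((i : ℝ) + 2) < W f 0 := by
    intro i
    obtain ⟨t, ⟨f, h1, h2, h3⟩, h4⟩ :=
      ((hcon (4 * ((i : ℝ) + 2))).and_eventually (hV.mem i)).exists
    exact ⟨t, f, h4, h1, h2, h3⟩
  choose t f htV hf hfQ hW using hseq
  have ht : Tendsto t atTop (𝓝 t0) := hV.tendsto htV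
  have hres := fun i => rescale1 (hf i).1.diff (hf i).1.ne (hf i).2
    (by positivity : (0 : ℝ) < (i : ℝ) + 2) (hW i)
  choose g R hR hgd hgf halg hW1 hW2 using hres
  have hg : Grow m R g := ⟨hR, hgd, fun i z hz => by
    obtain ⟨w, hw, h1⟩ := hgf i z hz
    rw [h1]
    exact (hf i).1.ne w hw, halg, hW1, hW2⟩
  obtain ⟨𝒰, h𝒰le⟩ : ∃ 𝒰 : Ultrafilter ℕ, (𝒰 : Filter ℕ) ≤ atTop :=
    ⟨Filter.hyperfilter ℕ, Nat.hyperfilter_le_atTop⟩
  obtain ⟨P, hdeg, hne, hnc, hlim⟩ := curve_lim h𝒰le hg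
  have hFL : ∀ (G : T → MvPolynomial (Fin (n + 1)) ℂ) (a : ℕ), CFam a G →
      FLim 𝒰 (fun i => G (t i)) (G t0) := by
    intro G a hG ξ x hξ
    have h1 : Tendsto (fun i => (t i, ξ i)) 𝒰 (𝓝 (t0, x)) :=
      (ht.mono_left h𝒰le).prodMk_nhds hξ
    have h2 := (hG.cont.tendsto (t0, x)).comp h1
    exact h2
  refine hno {l | ∀ z, eval (fun j => (P j).eval z) (Q l t0) = 0} P
    ⟨hdeg, hne, ?_, fun l hl => hl, fun l hl => ?_, hnc⟩
  · rintro z _ ⟨l, rfl⟩
    obtain ⟨a, ha⟩ := hF l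
    refine lim_eqn h𝒰le hg hlim hne (fun i => ha.hom (t i)) (ha.hom t0) (hFL _ a ha)
      (fun i z hz => ?_) z
    obtain ⟨w, hw, h1⟩ := hgf i z hz
    rw [h1]
    exact (hf i).1.mem w hw _ ⟨l, rfl⟩
  · obtain ⟨a, ha⟩ := hQ l
    refine (lim_hurwitz h𝒰le hg hlim hne (fun i => ha.hom (t i)) (ha.hom t0) (hFL _ a ha)
      fun i z hz => ?_).resolve_left hl
    obtain ⟨w, hw, h1⟩ := hgf i z hz
    rw [h1]
    exact hfQ i l w hw

theorem cfam_const {T : Type} [TopologicalSpace T] {a : ℕ} {F : MvPolynomial (Fin (n + 1)) ℂ}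
    (hF : F.IsHomogeneous a) : CFam a fun _ : T => F :=
  ⟨fun _ => hF, (MvPolynomial.continuous_eval F).comp continuous_snd⟩

/-- **Algebraic discs in complements of hypersurfaces.** -/
theorem log_bound {κ : Type} (m : ℕ) {E : Set (MvPolynomial (Fin (n + 1)) ℂ)}
    (hE : ∀ F ∈ E, ∃ a, F.IsHomogeneous a) {Q : κ → MvPolynomial (Fin (n + 1)) ℂ}
    (hQ : ∀ l, ∃ a, (Q l).IsHomogeneous a)
    (hno : ∀ (J : Set κ) (P : Fin (n + 1) → Polynomial ℂ), ¬ LineStr E Q J ((n + 1) * m) P) :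
    ∃ C : ℝ, ∀ f, DAlg E m f → Off Q f → W f 0 ≤ C := by
  have hr : (range fun l : E => (l : MvPolynomial (Fin (n + 1)) ℂ)) = E := Subtype.range_coe
  obtain ⟨C, hC⟩ := fam_bound (T := Unit) m (fun (l : E) _ => (l : MvPolynomial (Fin (n + 1)) ℂ))
    (fun l => by
      obtain ⟨a, ha⟩ := hE l l.2
      exact ⟨a, cfam_const ha⟩) (fun l _ => Q l) (fun l => by
      obtain ⟨a, ha⟩ := hQ l
      exact ⟨a, cfam_const ha⟩) () (by rw [hr]; exact hno)
  refine ⟨C, fun f hf hfQ => ?_⟩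
  have h1 := hC.self_of_nhds
  rw [hr] at h1
  exact h1 f hf hfQ

end Pool.Agent.V1153.KB
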