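import Pool.Agent.V1153.LK.Crv

/-!
Limits of curves: equations and Hurwitz's theorem.
-/

set_option autoImplicit false

namespace Pool.Agent.V1153.KB

open Filter Topology Set Metric MvPolynomial
open Pool.Agent.V1153.UG
open scoped ComplexConjugate

variable {n : ℕ}

theorem curve_lim {𝒰 : Ultrafilter ℕ} (h𝒰le : (𝒰 : Filter ℕ) ≤ atTop) {m : ℕ} {R : ℕ → ℝ}
    {g : ℕ → ℂ → Fin (n + 1) → ℂ} (hg : Grow m R g) :
    ∃ P : Fin (n + 1) → Polynomial ℂ, (∀ j, (P j).natDegree ≤ (n + 1) * m) ∧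
      (∀ z, (fun j => (P j).eval z) ≠ 0) ∧
      (∃ s t j k, (P j).eval s * (P k).eval t ≠ (P k).eval s * (P j).eval t) ∧ IsLim 𝒰 g P := by
  classical
  obtain ⟨k, hk⟩ : ∃ k, ∀ᶠ i in (𝒰 : Filter ℕ), ‖g i 0 k‖ = ‖g i 0‖ := by
    have h1 : ∀ᶠ i in (𝒰 : Filter ℕ), ∃ k, ‖g i 0 k‖ = ‖g i 0‖ :=
      Eventually.of_forall fun i => exists_max (g i 0)
    by_contra hc
    push Not at hc
    have h2 : ∀ k, ∀ᶠ i in (𝒰 : Filter ℕ), ‖g i 0 k‖ ≠ ‖g i 0‖ := hc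
    have h3 := Filter.eventually_all.2 h2
    obtain ⟨i, h4, k, h5⟩ := (h3.and h1).exists
    exact h4 k h5
  have hS : ∀ i : ℕ, ∃ s, i ≤ s ∧ ‖g s 0 k‖ = ‖g s 0‖ := by
    intro i
    have h1 : ∀ᶠ s in (𝒰 : Filter ℕ), i ≤ s := h𝒰le (eventually_ge_atTop i)
    obtain ⟨s, h2, h3⟩ := (h1.and hk).exists
    exact ⟨s, h2, h3⟩
  choose S hS1 hS2 using hS
  let σ : ℕ → ℕ := fun i => if ‖g i 0 k‖ = ‖g i 0‖ then i else S i
  have hσ1 : ∀ i, i ≤ σ i := by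
    intro i
    simp only [σ]
    split_ifs
    · exact le_rfl
    · exact hS1 i
  have hσ2 : ∀ i, ‖g (σ i) 0 k‖ = ‖g (σ i) 0‖ := by
    intro i
    simp only [σ]
    split_ifs with h
    · exact h
    · exact hS2 i
  have hσ3 : ∀ᶠ i in (𝒰 : Filter ℕ), σ i = i := by
    filter_upwards [hk] with i hi
    simp only [σ]
    rw [if_pos hi]
  have hg' : Grow m (fun i => R (σ i)) fun i => g (σ i) :=
    ⟨fun i => by
      have h1 := hg.rad (σ i)
      have h2 : (i : ℝ) ≤ (σ i : ℕ) := by exact_mod_cast hσ1 i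
      linarith, fun i => hg.diff _, fun i => hg.ne _, fun i => hg.alg _, fun i => hg.one _,
      fun i => hg.two _⟩
  obtain ⟨P, h1, h2, h3, h4⟩ := curve_lim_k h𝒰le hg' hσ2
  refine ⟨P, h1, h2, h3, fun ζ z hζ => (h4 ζ z hζ).congr' ?_⟩
  filter_upwards [hσ3] with i hi
  rw [hi]

theorem Grow.ev {𝒰 : Ultrafilter ℕ} (h𝒰le : (𝒰 : Filter ℕ) ≤ atTop) {m : ℕ} {R : ℕ → ℝ}
    {g : ℕ → ℂ → Fin (n + 1) → ℂ} (hg : Grow m R g) (ρ : ℝ) :
    ∀ᶠ i in (𝒰 : Filter ℕ), closedBall (0 : ℂ) ρ ⊆ ball (0 : ℂ) (R i) := by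
  have h1 : Tendsto (fun i : ℕ => (i : ℝ)) 𝒰 atTop := tendsto_natCast_atTop_atTop.mono_left h𝒰le
  filter_upwards [h1.eventually_gt_atTop ρ] with i hi
  exact closedBall_subset_ball (by linarith [hg.rad i])

theorem eval_pm {F : MvPolynomial (Fin (n + 1)) ℂ} {a : ℕ} (hF : F.IsHomogeneous a)
    (x : Fin (n + 1) → ℂ) (k : Fin (n + 1)) :
    eval (fun j => pm x (j, k)) F = (conj (x k) / (nsq x : ℂ)) ^ a * eval x F := by
  rw [← eval_homog hF]
  congr 2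
  funext j
  unfold pm
  rw [sum_conj]
  ring

/-- convergence of forms -/
def FLim (𝒰 : Ultrafilter ℕ) (F : ℕ → MvPolynomial (Fin (n + 1)) ℂ)
    (F0 : MvPolynomial (Fin (n + 1)) ℂ) : Prop :=
  ∀ (ξ : ℕ → Fin (n + 1) → ℂ) (x : Fin (n + 1) → ℂ), Tendsto ξ 𝒰 (𝓝 x) →
    Tendsto (fun i => eval (ξ i) (F i)) 𝒰 (𝓝 (eval x F0))

theorem lim_eqn {𝒰 : Ultrafilter ℕ} (h𝒰le : (𝒰 : Filter ℕ) ≤ atTop) {m : ℕ} {R : ℕ → ℝ}
    {g : ℕ → ℂ → Fin (n + 1) → ℂ} (hg : Grow m R g) {P : Fin (n + 1) → Polynomial ℂ}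
    (hP : IsLim 𝒰 g P) (hne : ∀ z, (fun j => (P j).eval z) ≠ 0)
    {F : ℕ → MvPolynomial (Fin (n + 1)) ℂ} {F0 : MvPolynomial (Fin (n + 1)) ℂ} {a : ℕ}
    (hF : ∀ i, (F i).IsHomogeneous a) (hF0 : F0.IsHomogeneous a) (hlim : FLim 𝒰 F F0)
    (h0 : ∀ i, ∀ z ∈ ball (0 : ℂ) (R i), eval (g i z) (F i) = 0) (z : ℂ) :
    eval (fun j => (P j).eval z) F0 = 0 := by
  obtain ⟨k, hk⟩ := Function.ne_iff.1 (hne z)
  have hk' : (P k).eval z ≠ 0 := hk
  have h1 := hP (fun _ => z) z tendsto_const_nhds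
  have h2 : Tendsto (fun i j => pm (g i z) (j, k)) 𝒰
      (𝓝 fun j => pm (fun j => (P j).eval z) (j, k)) :=
    tendsto_pi_nhds.2 fun j => (tendsto_pi_nhds.1 h1) (j, k)
  have h3 := hlim _ _ h2
  have h4 : ∀ᶠ i in (𝒰 : Filter ℕ), eval (fun j => pm (g i z) (j, k)) (F i) = 0 := by
    filter_upwards [hg.ev h𝒰le ‖z‖] with i hi
    rw [eval_pm (hF i), h0 i z (hi (mem_closedBall_zero_iff.2 le_rfl)), mul_zero]
  have h5 := tendsto_nhds_unique (tendsto_const_nhds.congr' (h4.mono fun i hi => hi.symm)) h3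
  rw [eval_pm hF0] at h5
  refine (mul_eq_zero.1 h5.symm).resolve_left (pow_ne_zero _ (div_ne_zero ?_ ?_))
  · exact (map_ne_zero _).2 hk'
  · exact Complex.ofReal_ne_zero.2 (nsq_pos (hne z)).ne'

theorem div_pm (x : Fin (n + 1) → ℂ) (j k : Fin (n + 1)) :
    x j / x k = pm x (j, k) / pm x (k, k) := by
  by_cases hk : x k = 0
  · unfold pm
    simp only
    rw [hk, div_zero, zero_mul, zero_div, div_zero]
  · have hx : x ≠ 0 := fun h => hk (by rw [h]; rfl)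
    unfold pm
    rw [sum_conj]
    have h1 : (nsq x : ℂ) ≠ 0 := Complex.ofReal_ne_zero.2 (nsq_pos hx).ne'
    have h2 : conj (x k) ≠ 0 := (map_ne_zero _).2 hk
    simp only
    field_simp

theorem pm_kk {x : Fin (n + 1) → ℂ} {k : Fin (n + 1)} (hk : x k ≠ 0) : pm x (k, k) ≠ 0 := by
  have hx : x ≠ 0 := fun h => hk (by rw [h]; rfl)
  unfold pm
  rw [sum_conj]
  exact div_ne_zero (mul_ne_zero hk ((map_ne_zero _).2 hk))
    (Complex.ofReal_ne_zero.2 (nsq_pos hx).ne')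

theorem chart_lim {𝒰 : Ultrafilter ℕ} {g : ℕ → ℂ → Fin (n + 1) → ℂ}
    {P : Fin (n + 1) → Polynomial ℂ} (hP : IsLim 𝒰 g P) {ζ : ℕ → ℂ} {z : ℂ}
    (hζ : Tendsto ζ 𝒰 (𝓝 z)) {k : Fin (n + 1)} (hk : (P k).eval z ≠ 0) :
    Tendsto (fun i j => g i (ζ i) j / g i (ζ i) k) 𝒰 (𝓝 fun j => (P j).eval z / (P k).eval z) := by
  refine tendsto_pi_nhds.2 fun j => ?_
  have h1 := hP ζ z hζ
  have h2 := ((tendsto_pi_nhds.1 h1) (j, k)).div ((tendsto_pi_nhds.1 h1) (k, k))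
    (pm_kk (x := fun j => (P j).eval z) hk)
  rw [div_pm (fun j => (P j).eval z) j k]
  refine h2.congr fun i => ?_
  exact (div_pm (g i (ζ i)) j k).symm

theorem diffOn_eval {U : Set ℂ} {h : ℂ → Fin (n + 1) → ℂ}
    (hh : ∀ j, DifferentiableOn ℂ (fun z => h z j) U) (F : MvPolynomial (Fin (n + 1)) ℂ) :
    DifferentiableOn ℂ (fun z => eval (h z) F) U := by
  simp only [MvPolynomial.eval_eq']
  refine DifferentiableOn.fun_sum fun s _ => ?_
  refine (differentiableOn_const _).mul ?_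
  refine DifferentiableOn.fun_finsetProd fun j _ => ?_
  exact (hh j).pow _

/-- **Hurwitz's theorem.** -/
theorem lim_hurwitz {𝒰 : Ultrafilter ℕ} (h𝒰le : (𝒰 : Filter ℕ) ≤ atTop) {m : ℕ} {R : ℕ → ℝ}
    {g : ℕ → ℂ → Fin (n + 1) → ℂ} (hg : Grow m R g) {P : Fin (n + 1) → Polynomial ℂ}
    (hP : IsLim 𝒰 g P) (hne : ∀ z, (fun j => (P j).eval z) ≠ 0)
    {Q : ℕ → MvPolynomial (Fin (n + 1)) ℂ} {Q0 : MvPolynomial (Fin (n + 1)) ℂ} {a : ℕ}
    (hQ : ∀ i, (Q i).IsHomogeneous a) (hQ0 : Q0.IsHomogeneous a) (hlim : FLim 𝒰 Q Q0)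
    (h0 : ∀ i, ∀ z ∈ ball (0 : ℂ) (R i), eval (g i z) (Q i) ≠ 0) :
    (∀ z, eval (fun j => (P j).eval z) Q0 = 0) ∨ ∀ z, eval (fun j => (P j).eval z) Q0 ≠ 0 := by
  classical
  by_contra hcon
  push Not at hcon
  obtain ⟨⟨t1, ht1⟩, t0, ht0⟩ := hcon
  have hq : (aeval P Q0 : Polynomial ℂ) ≠ 0 := by
    intro h
    apply ht1
    rw [← eval_aeval, h, Polynomial.eval_zero]
  obtain ⟨k, hk⟩ := Function.ne_iff.1 (hne t0)
  have hk' : (P k).eval t0 ≠ 0 := hk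
  -- the radius
  obtain ⟨δ, hδ, hδP, hδQ⟩ : ∃ δ > 0, (∀ z ∈ ball t0 δ, (P k).eval z ≠ 0) ∧
      ∀ z ∈ ball t0 δ, z ≠ t0 → eval (fun j => (P j).eval z) Q0 ≠ 0 := by
    have e1 : ∀ᶠ z in 𝓝 t0, (P k).eval z ≠ 0 := (P k).continuous.continuousAt.eventually_ne hk'
    have e2 : ∀ᶠ z in 𝓝 t0, z ≠ t0 → eval (fun j => (P j).eval z) Q0 ≠ 0 := by
      have h4 : {w | (aeval P Q0 : Polynomial ℂ).eval w = 0}.Finite := by
        refine ((aeval P Q0 : Polynomial ℂ).roots.toFinset.finite_toSet).subset fun w hw => ?_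
        rw [Finset.mem_coe, Multiset.mem_toFinset, Polynomial.mem_roots hq]
        exact hw
      have h5 : (({w | (aeval P Q0 : Polynomial ℂ).eval w = 0} \ {t0})ᶜ : Set ℂ) ∈ 𝓝 t0 :=
        (h4.subset sdiff_subset).isClosed.isOpen_compl.mem_nhds fun h => h.2 rfl
      filter_upwards [h5] with w hw hwz h0
      exact hw ⟨by
        change (aeval P Q0 : Polynomial ℂ).eval w = 0
        rw [eval_aeval, h0], hwz⟩
    obtain ⟨δ, hδ, h⟩ := Metric.eventually_nhds_iff_ball.1 (e1.and e2)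
    exact ⟨δ, hδ, fun z hz => (h z hz).1, fun z hz => (h z hz).2⟩
  have hcb : closedBall t0 (δ / 2) ⊆ ball t0 δ := closedBall_subset_ball (by linarith)
  -- the chart
  have hch : ∀ᶠ i in (𝒰 : Filter ℕ), ∀ z ∈ closedBall t0 (δ / 2), g i z k ≠ 0 := by
    by_contra hc
    have h1 := Ultrafilter.eventually_not.2 hc
    have h2 : ∀ i, ∃ z, z ∈ closedBall t0 (δ / 2) ∧
        ((¬ ∀ z ∈ closedBall t0 (δ / 2), g i z k ≠ 0) → g i z k = 0) := by
      intro i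
      by_cases h3 : ∀ z ∈ closedBall t0 (δ / 2), g i z k ≠ 0
      · exact ⟨t0, mem_closedBall_self (by linarith), fun h => absurd h3 h⟩
      · have h4 := h3
        push Not at h4
        obtain ⟨z, hz, hz0⟩ := h4
        exact ⟨z, hz, fun _ => hz0⟩
    choose ζ hζ1 hζ2 using h2
    obtain ⟨z, hz, hζ⟩ := (isCompact_closedBall t0 (δ / 2)).ultrafilter_le_nhds (𝒰.map ζ) (by
      rw [Filter.le_principal_iff]
      change ∀ᶠ i in (𝒰 : Filter ℕ), ζ i ∈ closedBall t0 (δ / 2)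
      exact Filter.Eventually.of_forall fun i => hζ1 i)
    have hζ' : Tendsto ζ 𝒰 (𝓝 z) := hζ
    have h3 := (tendsto_pi_nhds.1 (hP ζ z hζ')) (k, k)
    have h4 : ∀ᶠ i in (𝒰 : Filter ℕ), pm (g i (ζ i)) (k, k) = 0 := by
      filter_upwards [h1] with i hi
      unfold pm
      rw [hζ2 i hi, zero_mul, zero_div]
    have h5 := tendsto_nhds_unique (tendsto_const_nhds.congr' (h4.mono fun i hi => hi.symm)) h3
    exact pm_kk (x := fun j => (P j).eval z) (hδP z (hcb hz)) h5.symm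
  -- the functions
  let φ : ℕ → ℂ → ℂ := fun i z => eval (fun j => g i z j / g i z k) (Q i)
  have hφlim : ∀ (ζ : ℕ → ℂ) (z : ℂ), z ∈ ball t0 δ → Tendsto ζ 𝒰 (𝓝 z) →
      Tendsto (fun i => φ i (ζ i)) 𝒰 (𝓝 (eval (fun j => (P j).eval z / (P k).eval z) Q0)) :=
    fun ζ z hz hζ => hlim _ _ (chart_lim hP hζ (hδP z hz))
  have hφe : ∀ z ∈ ball t0 δ, eval (fun j => (P j).eval z / (P k).eval z) Q0 =
      ((P k).eval z)⁻¹ ^ a * eval (fun j => (P j).eval z) Q0 := by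
    intro z _
    rw [← eval_homog hQ0]
    congr 2
    funext j
    rw [div_eq_mul_inv, mul_comm]
  -- the minima
  have hmin : ∀ i, ∃ z ∈ sphere t0 (δ / 3), (ContinuousOn (fun z => ‖φ i z‖) (sphere t0 (δ / 3)) →
      ∀ w ∈ sphere t0 (δ / 3), ‖φ i z‖ ≤ ‖φ i w‖) := by
    intro i
    have hne : (sphere t0 (δ / 3)).Nonempty := NormedSpace.sphere_nonempty.2 (by linarith)
    by_cases hc : ContinuousOn (fun z => ‖φ i z‖) (sphere t0 (δ / 3))
    · obtain ⟨z, hz, h1⟩ := (isCompact_sphere t0 (δ / 3)).exists_isMinOn hne hc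
      exact ⟨z, hz, fun _ w hw => h1 hw⟩
    · obtain ⟨z, hz⟩ := hne
      exact ⟨z, hz, fun h => absurd h hc⟩
  choose ζ hζ1 hζ2 using hmin
  obtain ⟨z, hz, hζ⟩ := (isCompact_sphere t0 (δ / 3)).ultrafilter_le_nhds (𝒰.map ζ) (by
    rw [Filter.le_principal_iff]
    change ∀ᶠ i in (𝒰 : Filter ℕ), ζ i ∈ sphere t0 (δ / 3)
    exact Filter.Eventually.of_forall fun i => hζ1 i)
  have hζ' : Tendsto ζ 𝒰 (𝓝 z) := hζ
  have hzb : z ∈ ball t0 δ := by
    rw [mem_sphere] at hz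
    rw [mem_ball, hz]
    linarith
  have hzt : z ≠ t0 := by
    intro h
    rw [h, mem_sphere, dist_self] at hz
    linarith
  have hlz := (hφlim ζ z hzb hζ').norm
  have hl0 := (hφlim (fun _ => t0) t0 (mem_ball_self hδ) tendsto_const_nhds).norm
  have hkey : ∀ᶠ i in (𝒰 : Filter ℕ), ‖φ i (ζ i)‖ ≤ ‖φ i t0‖ := by
    filter_upwards [hch, hg.ev h𝒰le (‖t0‖ + δ)] with i hi hR
    have hsub : ball t0 (δ / 2) ⊆ ball (0 : ℂ) (R i) := by
      intro w hw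
      apply hR
      rw [mem_closedBall_zero_iff]
      rw [mem_ball, dist_eq_norm] at hw
      have h1 := norm_add_le (w - t0) t0
      rw [sub_add_cancel] at h1
      linarith
    have hd : DifferentiableOn ℂ (φ i) (ball t0 (δ / 2)) := by
      refine diffOn_eval (fun j => ?_) (Q i)
      exact ((hg.diff i j).mono hsub).div ((hg.diff i k).mono hsub) fun w hw =>
        hi w (ball_subset_closedBall hw)
    have hn0 : ∀ w ∈ ball t0 (δ / 2), φ i w ≠ 0 := by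
      intro w hw
      have h1 : φ i w = (g i w k)⁻¹ ^ a * eval (g i w) (Q i) := by
        rw [← eval_homog (hQ i)]
        change eval (fun j => g i w j / g i w k) (Q i) = _
        congr 2
        funext j
        rw [div_eq_mul_inv, mul_comm]
      rw [h1]
      exact mul_ne_zero (pow_ne_zero _ (inv_ne_zero (hi w (ball_subset_closedBall hw))))
        (h0 i w (hsub hw))
    have hsph : sphere t0 (δ / 3) ⊆ ball t0 (δ / 2) := by
      intro w hw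
      rw [mem_sphere] at hw
      rw [mem_ball, hw]
      linarith
    have hm := hζ2 i ((hd.continuousOn.mono hsph).norm)
    have hpos : 0 < ‖φ i (ζ i)‖ := norm_pos_iff.2 (hn0 _ (hsph (hζ1 i)))
    have h2 := Complex.norm_le_of_forall_mem_frontier_norm_le (f := fun w => (φ i w)⁻¹)
      (U := ball t0 (δ / 3)) (C := ‖φ i (ζ i)‖⁻¹) (z := t0) isBounded_ball
      ((hd.inv hn0).diffContOnCl_ball (closedBall_subset_ball (by linarith))) (by
        intro w hw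
        have hw' : w ∈ sphere t0 (δ / 3) := by
          rwa [frontier_ball t0 (by linarith : δ / 3 ≠ 0)] at hw
        rw [norm_inv]
        exact inv_anti₀ hpos (hm w hw')) (subset_closure (mem_ball_self (by linarith)))
    rw [norm_inv] at h2
    exact (inv_le_inv₀ (norm_pos_iff.2 (hn0 t0 (mem_ball_self (by linarith)))) hpos).1 h2
  have hfin := le_of_tendsto_of_tendsto hlz hl0 hkey
  rw [hφe z hzb, hφe t0 (mem_ball_self hδ), ht0, mul_zero, norm_zero, norm_mul, norm_pow] at hfin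
  have h1 : 0 < ‖((P k).eval z)⁻¹‖ ^ a * ‖eval (fun j => (P j).eval z) Q0‖ :=
    mul_pos (pow_pos (norm_pos_iff.2 (inv_ne_zero (hδP z hzb))) _)
      (norm_pos_iff.2 (hδQ z hzb hzt))
  linarith

end Pool.Agent.V1153.KB
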