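import Pool.Agent.V1153.LK.Fam
import Pool.Agent.V1153.KB.Cpx

/-!
Lipschitz bounds for algebraic discs in complements of hypersurfaces.
-/

set_option autoImplicit false

namespace Pool.Agent.V1153.KB

open Filter Topology Set Metric MvPolynomial ComplexConjugate
open Pool.Agent.V1153.UG
open scoped ENNReal

variable {n : ℕ}

/-- a bound for the derivatives at the centre gives a Lipschitz bound -/
theorem lip_off {κ : Type} {Q : κ → MvPolynomial (Fin (n + 1)) ℂ}
    {E : Set (MvPolynomial (Fin (n + 1)) ℂ)} {m : ℕ} {C : ℝ}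
    (hC : ∀ f, DAlg E m f → Off Q f → W f 0 ≤ C) :
    ∀ f, DAlg E m f → Off Q f → ∀ a b : ℂ, ‖a‖ < 1 → ‖b‖ < 1 →
      ‖pm (f b) - pm (f a)‖ ≤ (4 + 4 * (n + 1) * max C 0) * psh a b := by
  set C' : ℝ := max C 0 with hC'
  have hC0 : 0 ≤ C' := le_max_right _ _
  have hC1 : ∀ f, DAlg E m f → Off Q f → W f 0 ≤ C' := fun f hf hQ =>
    (hC f hf hQ).trans (le_max_left _ _)
  -- the derivative on the smaller disc
  have h2 : ∀ f, DAlg E m f → Off Q f → ∀ z ∈ ball (0 : ℂ) (1 / 2), W f z ≤ 2 * C' := by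
    intro f hf hQ z hz
    rw [mem_ball_zero_iff] at hz
    have hin : ∀ w ∈ ball (0 : ℂ) 1, z + w * (1 / 2) ∈ ball (0 : ℂ) 1 := by
      intro w hw
      rw [mem_ball_zero_iff] at hw ⊢
      refine (norm_add_le _ _).trans_lt ?_
      rw [norm_mul, norm_div, norm_one, Complex.norm_two]
      linarith
    have h3 : DAlg E m fun w => f (z + w * (1 / 2)) := by
      refine ⟨⟨fun j => ?_, fun w hw => hf.1.ne _ (hin w hw), fun w hw => hf.1.mem _ (hin w hw)⟩,
        fun j k => ?_⟩
      · refine (hf.1.diff j).comp ?_ hin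
        exact (differentiableOn_const _).add (differentiableOn_id.mul (differentiableOn_const _))
      · refine (hf.2 j k).comp (s := 1 / 2) (t := z) (u := 0) (v := 1)
          (φ := fun w => z + w * (1 / 2)) (infinite_ball one_pos) hin (fun x _ y _ hxy => ?_)
          (fun w _ => by rw [zero_mul, zero_add]; exact one_ne_zero) fun w _ => by ring
        have h4 : x * (1 / 2) = y * (1 / 2) := add_left_cancel hxy
        exact mul_right_cancel₀ (by norm_num) h4
    have h4 := hC1 _ h3 fun l w hw => hQ l _ (hin w hw)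
    rw [W_affine (fun j => (hf.1.diff j).differentiableAt (isOpen_ball.mem_nhds
      (hin 0 (mem_ball_self one_pos))))] at h4
    rw [zero_mul, add_zero, norm_div, norm_one, Complex.norm_two] at h4
    linarith
  intro f hf hQ a b ha hb
  set t : ℂ := (b - a) / (1 - conj a * b) with ht
  have htp : psh a b = ‖t‖ := rfl
  have ht1 : ‖t‖ < 1 := psh_lt ha hb
  have hg := hf.mob ha
  have hgQ : Off Q fun w => f ((w + a) / (1 + conj a * w)) := fun l w hw =>
    hQ l _ (mem_ball_zero_iff.2 (mob_lt ha (mem_ball_zero_iff.1 hw)))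
  have hden : 1 - conj a * b ≠ 0 := by
    have := den_ne (a := -a) (w := b) (by rwa [norm_neg]) hb
    rwa [map_neg, neg_mul, ← sub_eq_add_neg] at this
  have hga : f ((0 + a) / (1 + conj a * 0)) = f a := by
    rw [zero_add, mul_zero, add_zero, div_one]
  have hgb : f ((t + a) / (1 + conj a * t)) = f b := by
    congr 1
    have hden2 := den_ne ha ht1
    have htd : t * (1 - conj a * b) = b - a := div_mul_cancel₀ _ hden
    rw [div_eq_iff hden2]
    linear_combination htd
  rw [htp]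
  by_cases ht2 : ‖t‖ < 1 / 2
  · have h3 := pm_lip (f := fun w => f ((w + a) / (1 + conj a * w))) (U := ball 0 (1 / 2))
      isOpen_ball (convex_ball 0 (1 / 2))
      (fun j => (hg.1.diff j).mono (ball_subset_ball (by norm_num)))
      (fun z hz => hg.1.ne z (ball_subset_ball (by norm_num) hz)) (h2 _ hg hgQ)
      (mem_ball_self (by norm_num)) (mem_ball_zero_iff.2 ht2)
    simp only [hga, hgb, sub_zero] at h3
    refine h3.trans ?_
    have h4 : 2 * ((n : ℝ) + 1) * (2 * C') ≤ 4 + 4 * (n + 1) * C' := by nlinarith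
    exact mul_le_mul_of_nonneg_right h4 (norm_nonneg _)
  · push Not at ht2
    have h3 : ‖pm (f b) - pm (f a)‖ ≤ 2 := by
      refine (norm_sub_le _ _).trans ?_
      have h4 := norm_pm_le (hf.1.ne a (mem_ball_zero_iff.2 ha))
      have h5 := norm_pm_le (hf.1.ne b (mem_ball_zero_iff.2 hb))
      linarith
    have h6 : (0 : ℝ) ≤ 4 * (n + 1) * C' := by positivity
    nlinarith

theorem poin_nonneg {a b : ℂ} (ha : ‖a‖ < 1) (hb : ‖b‖ < 1) : 0 ≤ poin a b :=
  (norm_nonneg _).trans (psh_le_poin ha hb)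

theorem chain_nonneg {𝒟 : (ℂ → Fin (n + 1) → ℂ) → Prop} {x y : Fin (n + 1) → ℂ} {ℓ : ℝ}
    (h : Chain 𝒟 x y ℓ) : 0 ≤ ℓ := by
  induction h with
  | nil _ => exact le_rfl
  | cons _ h2 h3 _ _ ih => exact add_nonneg (poin_nonneg h2 h3) ih

/-- The Kobayashi pseudodistance of the class `𝒟` is at least `c` times the distance of the points
in the projective space (the maximum norm of the difference of the orthogonal projectors to the
lines). -/
def KobGe (c : ℝ) (𝒟 : (ℂ → Fin (n + 1) → ℂ) → Prop) : Prop :=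
  ∀ x y : Fin (n + 1) → ℂ, x ≠ 0 → y ≠ 0 → ENNReal.ofReal (c * ‖pm x - pm y‖) ≤ kob 𝒟 x y

/-- the constant -/
noncomputable def kc (n : ℕ) (C : ℝ) : ℝ := 1 / (5 + 4 * (n + 1) * max C 0)

theorem kc_pos (n : ℕ) (C : ℝ) : 0 < kc n C := by
  have h1 : 0 ≤ max C 0 := le_max_right _ _
  unfold kc
  positivity

theorem kob_ge {κ : Type} {Q : κ → MvPolynomial (Fin (n + 1)) ℂ}
    {E : Set (MvPolynomial (Fin (n + 1)) ℂ)} {m : ℕ} {C : ℝ}
    (hC : ∀ f, DAlg E m f → Off Q f → W f 0 ≤ C) {𝒟 : (ℂ → Fin (n + 1) → ℂ) → Prop}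
    (h𝒟 : ∀ f, 𝒟 f → DAlg E m f ∧ Off Q f) : KobGe (kc n C) 𝒟 := by
  intro x y hx hy
  have h1 : 0 ≤ max C 0 := le_max_right _ _
  set K : ℝ := 4 + 4 * (n + 1) * max C 0 with hK
  have hK0 : 0 ≤ K := by positivity
  have hkc : kc n C = 1 / (K + 1) := by
    unfold kc
    rw [hK]
    congr 1
    ring
  refine le_iInf₂ fun ℓ hℓ => ENNReal.ofReal_le_ofReal ?_
  have h3 := chain_bound (E := E) (fun f hf => (h𝒟 f hf).1.1) hK0 (fun f hf => lip_off hC f
    (h𝒟 f hf).1 (h𝒟 f hf).2) hℓ hx hy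
  have h5 : 0 ≤ ‖pm x - pm y‖ := norm_nonneg _
  rw [hkc, one_div, inv_mul_le_iff₀ (by linarith)]
  have h4 : 0 ≤ ℓ := chain_nonneg hℓ
  nlinarith

end Pool.Agent.V1153.KB
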