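import Pool.Agent.V1153.LK.Lip

/-!
Families of projective varieties without rational curves of bounded degree.
-/

set_option autoImplicit false

namespace Pool.Agent.V1153.KB

open Filter Topology Set Metric MvPolynomial
open Pool.Agent.V1153.UG

variable {n : ℕ}

/-- the equations of the member of the family with the parameter `t` -/
def fib {T ι : Type} (F : ι → T → MvPolynomial (Fin (n + 1)) ℂ) (t : T) :
    Set (MvPolynomial (Fin (n + 1)) ℂ) := range fun l => F l t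

theorem line_gm {E : Set (MvPolynomial (Fin (n + 1)) ℂ)} {κ : Type}
    {Q : κ → MvPolynomial (Fin (n + 1)) ℂ} {J : Set κ} {N : ℕ} {P : Fin (n + 1) → Polynomial ℂ}
    (h : LineStr E Q J N P) : GmBdd (Ideal.span E) 1 N P := by
  refine ⟨h.deg, fun F hF _ => ?_, ⟨1, 0, one_ne_zero, by rw [map_one, pow_zero, mul_one, map_one]⟩,
    h.nc⟩
  apply Polynomial.funext
  intro z
  have h1 : Ideal.span E ≤ RingHom.ker (eval fun j => (P j).eval z) :=
    Ideal.span_le.2 fun F hF => h.mem z F hF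
  rw [eval_aeval, Polynomial.eval_zero]
  exact h1 hF

/-- **Algebraic discs in families of projective varieties.** -/
theorem stab_alg {T : Type} [TopologicalSpace T] [FirstCountableTopology T] {ι : Type} (N : ℕ)
    (F : ι → T → MvPolynomial (Fin (n + 1)) ℂ) (hF : ∀ l, ∃ a, CFam a (F l)) (t0 : T)
    (hno : ∀ P, ¬ GmBdd (Ideal.span (fib F t0)) 1 ((n + 1) * N) P) :
    ∃ C : ℝ, ∀ᶠ t in 𝓝 t0, (∀ P, ¬ GmBdd (Ideal.span (fib F t)) 1 N P) ∧
      ∀ 𝒟 : (ℂ → Fin (n + 1) → ℂ) → Prop, (∀ f, 𝒟 f → DAlg (fib F t) N f) →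
        (∀ f, 𝒟 f → fs f 0 ≤ (n + 1) * C) ∧ KobGe (kc n C) 𝒟 := by
  obtain ⟨C, hC⟩ := fam_bound (κ := Empty) N F hF (fun l => l.elim) (fun l => l.elim) t0
    fun J P hP => hno P (line_gm hP)
  refine ⟨C, ?_⟩
  filter_upwards [hC] with t ht
  have hoff : ∀ f : ℂ → Fin (n + 1) → ℂ,
      Off (fun l : Empty => (l.elim : MvPolynomial (Fin (n + 1)) ℂ)) f := fun f l => l.elim
  have hW : ∀ f, DAlg (fib F t) N f → W f 0 ≤ C := fun f hf => ht f hf fun l => l.elim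
  have hfs : ∀ f, DAlg (fib F t) N f → fs f 0 ≤ (n + 1) * C := fun f hf =>
    (fs_le (hf.1.ne 0 (mem_ball_self one_pos))).trans
      (mul_le_mul_of_nonneg_left (hW f hf) (by positivity))
  refine ⟨fun P hP => ?_, fun 𝒟 h𝒟 => ⟨fun f hf => hfs f (h𝒟 f hf), ?_⟩⟩
  · have hom : ∀ G ∈ fib F t, ∃ a, G.IsHomogeneous a := by
      rintro _ ⟨l, rfl⟩
      obtain ⟨a, ha⟩ := hF l
      exact ⟨a, ha.hom t⟩
    obtain ⟨P', h1, h2, h3, h4, h5, h6⟩ := rat_disc hom hP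
    exact fs_unbdd h1 h4 h5 ⟨_, hfs⟩
  · exact kob_ge (Q := fun l : Empty => (l.elim : MvPolynomial (Fin (n + 1)) ℂ))
      (fun f hf _ => hW f hf) fun f hf => ⟨h𝒟 f hf, hoff f⟩

/-- **Discs of bounded complexity in families of projective varieties.** -/
theorem stab_cx (n D s r e d : ℕ) : ∃ N, ∀ (T : Type) [TopologicalSpace T]
    [FirstCountableTopology T] (ι : Type) (F : ι → T → MvPolynomial (Fin (n + 1)) ℂ),
    (∀ l, ∃ a ≤ D, CFam a (F l)) → ∀ t0 : T,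
      (∀ P, ¬ GmBdd (Ideal.span (fib F t0)) 1 N P) →
      ∃ C c : ℝ, 0 < c ∧ ∀ᶠ t in 𝓝 t0, (∀ f, DCx (fib F t) s r e d f → fs f 0 ≤ C) ∧
        KobGe c (DCx (fib F t) s r e d) := by
  obtain ⟨N, hN⟩ := fam_none n D s r e d
  refine ⟨(n + 1) * N, fun T _ _ ι F hF t0 hno => ?_⟩
  obtain ⟨C, hC⟩ := stab_alg N F (fun l => by
    obtain ⟨a, -, ha⟩ := hF l
    exact ⟨a, ha⟩) t0 hno
  refine ⟨(n + 1) * C, kc n C, kc_pos n C, ?_⟩
  filter_upwards [hC] with t ht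
  obtain ⟨h1, h2⟩ := ht
  have hE : ∀ G ∈ fib F t, ∃ a ≤ D, G.IsHomogeneous a := by
    rintro _ ⟨l, rfl⟩
    obtain ⟨a, ha, h3⟩ := hF l
    exact ⟨a, ha, h3.hom t⟩
  obtain ⟨-, -, h3⟩ := hN (fib F t) 1 ⟨hE, 0, Nat.zero_le _, isHomogeneous_one _ _⟩ h1
  exact h2 _ fun f hf => DCx.alg h3 hf

end Pool.Agent.V1153.KB
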